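import Pool.Agent.N469.PT.Pal
import Pool.Agent.P8H18.PS.Stm

set_option autoImplicit false

/-! Package LAW of the project PS: the one shift estimate for the palindromes with restricted digits. -/

namespace Pool.Agent.P8H65.PS
open Finset
open Pool.Agent.TH872.Mir
open Pool.Agent.N469.PT
open Pool.Agent.P8H18.PS

/-- the possible digits at the place `i` -/
def XD (D : Finset ℕ) (i : ℕ) : Finset ℕ := if i = 0 then D.erase 0 else D

/-- the law of the pairs of digits -/
noncomputable def wD (D : Finset ℕ) (i : ℕ) (a : ℕ × ℕ) : ℝ :=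
  if a.1 = a.2 ∧ a.1 ∈ XD D i then 1 / ((XD D i).card : ℝ) else 0

/-- the law of the middle digit -/
noncomputable def uD (D : Finset ℕ) (a : ℕ) : ℝ := if a ∈ D then 1 / (D.card : ℝ) else 0

lemma two_digits (D : Finset ℕ) (hD : DigitSet D) : ∃ x ∈ D, ∃ y ∈ D, x ≠ y := by
  obtain ⟨a, ha, b, hb, hab⟩ := hD.three
  exact ⟨a, ha, b, hb, fun h => hab (by rw [h])⟩

lemma XD_nonempty (D : Finset ℕ) (hD : DigitSet D) (i : ℕ) : (XD D i).Nonempty := by
  obtain ⟨x, hx, y, hy, hxy⟩ := two_digits D hD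
  unfold XD
  split_ifs
  · by_cases h : x = 0
    · exact ⟨y, mem_erase.2 ⟨fun h' => hxy (by rw [h, h']), hy⟩⟩
    · exact ⟨x, mem_erase.2 ⟨h, hx⟩⟩
  · exact ⟨x, hx⟩

lemma XD_sub (D : Finset ℕ) (hD : DigitSet D) (i : ℕ) : XD D i ⊆ range 10 := by
  intro x hx
  unfold XD at hx
  split_ifs at hx
  · exact mem_range.2 (hD.lt x (mem_of_mem_erase hx))
  · exact mem_range.2 (hD.lt x hx)

lemma wD_nonneg (D : Finset ℕ) (i : ℕ) (a : ℕ × ℕ) : 0 ≤ wD D i a := by
  unfold wD
  split_ifs <;> positivity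

lemma card_D_le (D : Finset ℕ) (hD : DigitSet D) : D.card ≤ 10 := by
  have : D ⊆ range 10 := fun x hx => mem_range.2 (hD.lt x hx)
  have := card_le_card this
  rwa [card_range] at this

lemma wD_mirr (D : Finset ℕ) (hD : DigitSet D) (m : ℕ) : Mirr 10 m (1 / 100) (wD D) := by
  refine ⟨?_, ?_, ?_⟩
  · intro i _ a
    exact wD_nonneg D i a
  · intro i _
    unfold Q
    rw [sum_product]
    have h1 : ∀ x ∈ range 10, ∑ y ∈ range 10, wD D i (x, y) = if x ∈ XD D i then 1 / ((XD D i).card : ℝ) else 0 := by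
      intro x hx
      rw [sum_eq_single x]
      · unfold wD
        simp only [true_and]
      · intro y _ hy
        unfold wD
        rw [if_neg]
        intro h
        exact hy h.1.symm
      · intro h; exact absurd hx h
    rw [sum_congr rfl h1, ← sum_filter]
    have h2 : (range 10).filter (fun x => x ∈ XD D i) = XD D i := by
      ext x
      rw [mem_filter]
      exact ⟨fun h => h.2, fun h => ⟨XD_sub D hD i h, h⟩⟩
    rw [h2, sum_const, nsmul_eq_mul, mul_one_div, div_self]
    exact_mod_cast (XD_nonempty D hD i).card_pos.ne'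
  · intro i _ hi
    have hi0 : i ≠ 0 := by omega
    obtain ⟨x, hx, y, hy, hxy⟩ := two_digits D hD
    have hw : ∀ x ∈ D, wD D i (x, x) = 1 / (D.card : ℝ) := by
      intro x hx
      unfold wD XD
      rw [if_neg hi0, if_pos ⟨rfl, hx⟩]
    have hnn : ∀ a a' : ℕ × ℕ, 0 ≤ (if a.1 ≠ a'.1 ∧ a.2 ≠ a'.2 then wD D i a * wD D i a' else 0) := by
      intro a a'
      have := mul_nonneg (wD_nonneg D i a) (wD_nonneg D i a')
      split_ifs
      · exact this
      · exact le_rfl
    have m0 : ((x, x) : ℕ × ℕ) ∈ Q 10 := by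
      unfold Q
      rw [mem_product, mem_range]
      have := hD.lt x hx
      exact ⟨this, this⟩
    have m1 : ((y, y) : ℕ × ℕ) ∈ Q 10 := by
      unfold Q
      rw [mem_product, mem_range]
      have := hD.lt y hy
      exact ⟨this, this⟩
    have hc : (D.card : ℝ) ≤ 10 := by exact_mod_cast card_D_le D hD
    have hc0 : (0 : ℝ) < D.card := by exact_mod_cast card_pos.2 ⟨x, hx⟩
    calc (1 / 100 : ℝ) ≤ 1 / (D.card : ℝ) * (1 / (D.card : ℝ)) := by
          rw [one_div_mul_one_div]
          apply one_div_le_one_div_of_le (by positivity)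
          nlinarith
      _ = if ((x, x) : ℕ × ℕ).1 ≠ ((y, y) : ℕ × ℕ).1 ∧ ((x, x) : ℕ × ℕ).2 ≠ ((y, y) : ℕ × ℕ).2 then wD D i (x, x) * wD D i (y, y) else 0 := by
          rw [if_pos ⟨hxy, hxy⟩, hw x hx, hw y hy]
      _ ≤ ∑ a' ∈ Q 10, (if ((x, x) : ℕ × ℕ).1 ≠ a'.1 ∧ ((x, x) : ℕ × ℕ).2 ≠ a'.2 then wD D i (x, x) * wD D i a' else 0) :=
          single_le_sum (f := fun a' : ℕ × ℕ => if ((x, x) : ℕ × ℕ).1 ≠ a'.1 ∧ ((x, x) : ℕ × ℕ).2 ≠ a'.2 then wD D i (x, x) * wD D i a' else 0)
            (fun a' _ => hnn (x, x) a') m1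
      _ ≤ _ := single_le_sum (f := fun a : ℕ × ℕ => ∑ a' ∈ Q 10, if a.1 ≠ a'.1 ∧ a.2 ≠ a'.2 then wD D i a * wD D i a' else 0)
            (fun a _ => sum_nonneg fun a' _ => hnn a a') m0

lemma uD_sum (D : Finset ℕ) (hD : DigitSet D) : ∑ a ∈ range 10, uD D a = 1 := by
  unfold uD
  rw [← sum_filter]
  have h2 : (range 10).filter (fun x => x ∈ D) = D := by
    ext x
    rw [mem_filter, mem_range]
    exact ⟨fun h => h.2, fun h => ⟨hD.lt x h, h⟩⟩
  obtain ⟨x, hx, _⟩ := two_digits D hD
  rw [h2, sum_const, nsmul_eq_mul, mul_one_div, div_self]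
  exact_mod_cast (card_pos.2 ⟨x, hx⟩).ne'

/-- the digits of a palindrome -/
lemma mem_Pal_iff (D : Finset ℕ) (L v : ℕ) (hv : v < 10 ^ (2 * L + 1)) : v ∈ Pal D L ↔
    10 ^ (2 * L) ≤ v ∧ ∀ j, j < 2 * L + 1 → v / 10 ^ j % 10 = v / 10 ^ (2 * L - j) % 10 ∧ v / 10 ^ j % 10 ∈ D := by
  unfold Pal
  rw [mem_filter, mem_range]
  have hget : ∀ j, (hj : j < (Nat.digits 10 v).length) → (Nat.digits 10 v)[j] = v / 10 ^ j % 10 := by
    intro j hj
    rw [← Nat.getD_digits v j (by norm_num : 2 ≤ 10), List.getD_eq_getElem _ _ hj]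
  constructor
  · rintro ⟨_, h1, h2, h3⟩
    have hlen : (Nat.digits 10 v).length = 2 * L + 1 := by
      have hpos : 0 < 10 ^ (2 * L) := by positivity
      rw [Nat.digits_len 10 v (by norm_num) (by omega), Nat.log_eq_of_pow_le_of_lt_pow h1 hv]
    refine ⟨h1, fun j hj => ⟨?_, ?_⟩⟩
    · rw [← hget j (by omega), ← hget (2 * L - j) (by omega)]
      have h4 : (Nat.digits 10 v)[j]'(by omega) = (Nat.digits 10 v).reverse[j]'(by rw [List.length_reverse]; omega) := by
        simp only [h2]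
      rw [h4, List.getElem_reverse]
      congr 1
      omega
    · rw [← hget j (by omega)]
      exact h3 _ (List.getElem_mem _)
  · rintro ⟨h1, h2⟩
    have hlen : (Nat.digits 10 v).length = 2 * L + 1 := by
      have hpos : 0 < 10 ^ (2 * L) := by positivity
      rw [Nat.digits_len 10 v (by norm_num) (by omega), Nat.log_eq_of_pow_le_of_lt_pow h1 hv]
    refine ⟨hv, h1, ?_, ?_⟩
    · apply List.ext_getElem (by rw [List.length_reverse])
      intro j hj1 hj2
      rw [List.getElem_reverse, hget, hget]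
      have := (h2 j (by omega)).1
      rw [this]
      congr 3
      omega
    · intro a ha
      obtain ⟨j, hj, rfl⟩ := List.mem_iff_getElem.1 ha
      rw [hget]
      exact (h2 j (by omega)).2

/-- the palindromes are equally probable -/
lemma weight_Pal (D : Finset ℕ) (hD : DigitSet D) (L : ℕ) (hL : 1 ≤ L) : ∃ c : ℝ, 0 < c ∧ ∀ v, v < 10 ^ (2 * L + 1) →
    weight 10 (2 * L + 1) (wD D) (uD D) v = if v ∈ Pal D L then c else 0 := by
  obtain ⟨x, hx, _⟩ := two_digits D hD
  have hc0 : (0 : ℝ) < D.card := by exact_mod_cast card_pos.2 ⟨x, hx⟩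
  refine ⟨(∏ j ∈ range L, 1 / ((XD D j).card : ℝ)) * (1 / (D.card : ℝ)), ?_, ?_⟩
  · apply mul_pos
    · apply prod_pos
      intro j _
      have : (0 : ℝ) < ((XD D j).card : ℝ) := by exact_mod_cast (XD_nonempty D hD j).card_pos
      positivity
    · positivity
  · intro v hv
    have h1 : (2 * L + 1) / 2 = L := by omega
    have h2 : (2 * L + 1) % 2 = 1 := by omega
    unfold weight
    rw [h1, h2, if_pos rfl]
    have h3 : ∀ j, 2 * L + 1 - 1 - j = 2 * L - j := fun j => by omega
    simp only [h3]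
    by_cases hp : v ∈ Pal D L
    · rw [if_pos hp]
      rw [mem_Pal_iff D L v hv] at hp
      congr 1
      · apply prod_congr rfl
        intro j hj
        rw [mem_range] at hj
        have h4 := hp.2 j (by omega)
        unfold wD
        rw [if_pos]
        refine ⟨h4.1, ?_⟩
        unfold XD
        split_ifs with hj0
        · refine mem_erase.2 ⟨?_, h4.2⟩
          simp only
          rw [h4.1, hj0, Nat.sub_zero]
          have h5 : v / 10 ^ (2 * L) < 10 := by
            rw [Nat.div_lt_iff_lt_mul (by positivity), ← pow_succ']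
            exact hv
          have h6 : 1 ≤ v / 10 ^ (2 * L) := (Nat.one_le_div_iff (by positivity)).2 hp.1
          rw [Nat.mod_eq_of_lt h5]
          omega
        · exact h4.2
      · unfold uD
        rw [if_pos (hp.2 L (by omega)).2]
    · rw [if_neg hp]
      by_contra hne
      apply hp
      rw [mem_Pal_iff D L v hv]
      have hprod : ∏ j ∈ range L, wD D j (v / 10 ^ j % 10, v / 10 ^ (2 * L - j) % 10) ≠ 0 := by
        intro h0
        rw [h0, zero_mul] at hne
        exact hne rfl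
      have hmid : v / 10 ^ L % 10 ∈ D := by
        by_contra h0
        have : uD D (v / 10 ^ L % 10) = 0 := by
          unfold uD
          rw [if_neg h0]
        rw [this, mul_zero] at hne
        exact hne rfl
      rw [prod_ne_zero_iff] at hprod
      have hfac : ∀ j < L, v / 10 ^ j % 10 = v / 10 ^ (2 * L - j) % 10 ∧ v / 10 ^ j % 10 ∈ XD D j := by
        intro j hj
        have := hprod j (mem_range.2 hj)
        unfold wD at this
        by_contra hc
        rw [if_neg hc] at this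
        exact this rfl
      have hXD : ∀ j x, x ∈ XD D j → x ∈ D := by
        intro j x hx
        unfold XD at hx
        split_ifs at hx
        · exact mem_of_mem_erase hx
        · exact hx
      refine ⟨?_, ?_⟩
      · have h4 := hfac 0 (by omega)
        unfold XD at h4
        rw [if_pos rfl, mem_erase, Nat.sub_zero] at h4
        have h5 : 1 ≤ v / 10 ^ (2 * L) % 10 := by
          rw [← h4.1]
          exact Nat.one_le_iff_ne_zero.2 h4.2.1
        have h6 : 1 ≤ v / 10 ^ (2 * L) := h5.trans (Nat.mod_le _ _)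
        exact (Nat.one_le_div_iff (by positivity)).1 h6
      · intro j hj
        rcases Nat.lt_trichotomy j L with h4 | h4 | h4
        · exact ⟨(hfac j h4).1, hXD j _ (hfac j h4).2⟩
        · rw [h4]
          have h5 : 2 * L - L = L := by omega
          rw [h5]
          exact ⟨rfl, hmid⟩
        · have h5 := hfac (2 * L - j) (by omega)
          have h6 : 2 * L - (2 * L - j) = j := by omega
          rw [h6] at h5
          exact ⟨h5.1.symm, by rw [← h5.1]; exact hXD _ _ h5.2⟩

/-- **package LAW** -/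
theorem law : S_LAW := by
  intro D hD U
  obtain ⟨A, B0, hE⟩ := mirror_one 10 1 (by norm_num) (1 / 100) (by norm_num) 1 le_rfl 0 U
  refine ⟨B0, fun E => ?_⟩
  obtain ⟨N₀, hN0⟩ := hE E
  refine ⟨N₀ + 1, fun L hL N hN z hz1 hz2 Kc hK G hG => ?_⟩
  have hNL : N₀ ≤ N := by
    have h1 : L < 10 ^ L := Nat.lt_pow_self (by norm_num)
    have h2 : 10 ^ L ≤ 10 ^ (2 * L + 1) := Nat.pow_le_pow_right (by norm_num) (by omega)
    omega
  have hMc : Mc 10 1 (1 / 100) N (range (10 ^ (2 * L + 1))) (weight 10 (2 * L + 1) (wD D) (uD D)) := by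
    refine ⟨2 * L + 1, wD D, uD D, by omega, by omega, wD_mirr D hD _, ?_, uD_sum D hD, rfl, rfl⟩
    intro a
    unfold uD
    split_ifs <;> positivity
  obtain ⟨_, htot, _, _, hmain⟩ := hN0 N hNL _ _ hMc 0 (by omega)
  have hm := hmain z hz1 hz2 Kc hK G hG
  obtain ⟨c, hc, hcv⟩ := weight_Pal D hD L (by omega)
  have hsub : (range (10 ^ (2 * L + 1))).filter (fun v => v ∈ Pal D L) = Pal D L := by
    ext v
    rw [mem_filter]
    refine ⟨fun h => h.2, fun h => ⟨?_, h⟩⟩
    unfold Pal at h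
    exact (mem_filter.1 h).1
  have hcard : ((Pal D L).card : ℝ) * c = 1 := by
    rw [← htot, sum_congr rfl (fun v hv => hcv v (mem_range.1 hv)), ← sum_filter, hsub, sum_const, nsmul_eq_mul]
  have hsum : ∑ v ∈ range (10 ^ (2 * L + 1)), weight 10 (2 * L + 1) (wD D) (uD D) v *
      |∑ n ∈ Icc 1 N, G n * (Pool.Agent.H373R2.T7.lamI ((n : ℤ) + ((0 + 1 * v : ℕ) : ℤ)) -
        Pool.Agent.H373R2.T7.lamzI z ((n : ℤ) + ((0 + 1 * v : ℕ) : ℤ)))| =
      c * ∑ v ∈ Pal D L, |∑ n ∈ Icc 1 N, G n * (ArithmeticFunction.vonMangoldt (n + v) - lamz z (n + v))| := by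
    rw [mul_sum, ← hsub, sum_filter]
    apply sum_congr rfl
    intro v hv
    rw [hcv v (mem_range.1 hv)]
    have hmem : v ∈ (range (10 ^ (2 * L + 1))).filter (fun v => v ∈ Pal D L) ↔ v ∈ Pal D L := by rw [hsub]
    by_cases hp : v ∈ Pal D L
    · rw [if_pos hp, if_pos hp]
      congr 2
      apply sum_congr rfl
      intro n hn
      rw [mem_Icc] at hn
      have e1 : ((n : ℤ) + ((0 + 1 * v : ℕ) : ℤ)) = ((n + v : ℕ) : ℤ) := by push_cast; ring
      rw [e1]
      unfold Pool.Agent.H373R2.T7.lamI Pool.Agent.H373R2.T7.lamzI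
      rw [if_pos (by exact_mod_cast (by omega : 1 ≤ n + v)), if_pos (by exact_mod_cast (by omega : 1 ≤ n + v)), Int.toNat_natCast]
      rfl
    · rw [if_neg hp, if_neg hp, zero_mul]
  rw [hsum] at hm
  have hP0 : (0 : ℝ) ≤ (Pal D L).card := Nat.cast_nonneg _
  calc ∑ v ∈ Pal D L, |∑ n ∈ Icc 1 N, G n * (ArithmeticFunction.vonMangoldt (n + v) - lamz z (n + v))|
      = ((Pal D L).card : ℝ) * (c * ∑ v ∈ Pal D L, |∑ n ∈ Icc 1 N, G n * (ArithmeticFunction.vonMangoldt (n + v) - lamz z (n + v))|) := by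
        rw [← mul_assoc, hcard, one_mul]
    _ ≤ _ := mul_le_mul_of_nonneg_left hm hP0

end Pool.Agent.P8H65.PS
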