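import Pool.Agent.H373R2.T7.SingLim
import Pool.Agent.H373R2.T7.LamZ2
import Pool.Agent.P8H18.PS.Stm

set_option autoImplicit false

/-! Package SNG of the project PS: the singular series. -/

namespace Pool.Agent.P8H65.PS
open Finset Filter
open Pool.Agent.H373R2.T7
open Pool.Agent.P8H18.PS (PP nu d10 sing Adm DigitSet S_SNG)

lemma mem_PP {z p : ℕ} : p ∈ PP z ↔ p ≤ z ∧ p.Prime ∧ p ≠ 2 ∧ p ≠ 5 := by
  unfold PP
  rw [mem_filter, mem_Icc]
  constructor
  · rintro ⟨⟨_, h⟩, h2⟩; exact ⟨h, h2⟩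
  · rintro ⟨h, h2⟩; exact ⟨⟨h2.1.one_le, h⟩, h2⟩

/-- the product over the primes other than `2` and `5` -/
noncomputable def sP {k : ℕ} (a : Fin k → ℤ) (z : ℕ) : ℝ := ∏ p ∈ PP z, Fp a p

lemma Fp_nonneg {k : ℕ} (a : Fin k → ℤ) (p : ℕ) (hpp : p.Prime) : 0 ≤ Fp a p := by
  have hp2 : (2 : ℝ) ≤ p := by exact_mod_cast hpp.two_le
  have hp0 : (0 : ℝ) < p := by linarith
  have hq : 0 < 1 - 1 / (p : ℝ) := by rw [sub_pos, div_lt_one hp0]; linarith
  unfold Fp
  apply div_nonneg _ (by positivity)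
  rw [sub_nonneg, div_le_one hp0]
  have h1 : nuP a p ≤ p := by
    unfold nuP
    exact (card_filter_le _ _).trans (by rw [card_range])
  exact_mod_cast h1

lemma sP_nonneg {k : ℕ} (a : Fin k → ℤ) (z : ℕ) : 0 ≤ sP a z :=
  prod_nonneg fun p hp => Fp_nonneg a p (mem_PP.1 hp).2.1

/-- the tail -/
lemma tailP {k : ℕ} (a : Fin k → ℤ) (ha : ∀ i, a i ≠ 0) (hab : ∀ i j, i ≠ j → a i ≠ a j) (z z' : ℕ) (hz : 3 * (k + 1) ≤ z)
    (hzz : z ≤ z') : ∃ R : ℝ, sP a z' = sP a z * R ∧ Real.exp (-(((k + 1 : ℕ) : ℝ) ^ 2 / z)) ≤ R ∧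
      R ≤ Real.exp (2 * ((k + 1 : ℕ) : ℝ) * (badP a).card / z) := by
  have hz0 : (0 : ℝ) < z := by exact_mod_cast (by omega : 0 < z)
  refine ⟨∏ p ∈ (PP z').filter (fun p => ¬ p ≤ z), Fp a p, ?_, ?_, ?_⟩
  · unfold sP
    rw [← prod_filter_mul_prod_filter_not (PP z') (fun p => p ≤ z)]
    congr 1
    apply prod_congr _ (fun _ _ => rfl)
    ext p
    rw [mem_filter, mem_PP, mem_PP]
    constructor
    · rintro ⟨⟨_, h1⟩, h2⟩; exact ⟨h2, h1⟩
    · rintro ⟨h1, h2⟩; exact ⟨⟨h1.trans hzz, h2⟩, h1⟩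
  · have h1 : ∀ p ∈ (PP z').filter (fun p => ¬ p ≤ z), Real.exp (-(((k + 1 : ℕ) : ℝ) ^ 2 * (1 / (p : ℝ) ^ 2))) ≤ Fp a p := by
      intro p hp
      rw [mem_filter, mem_PP] at hp
      exact (Fp_bounds a ha hab p hp.1.2.1 (by omega)).1
    refine le_trans ?_ (prod_le_prod (fun p _ => (Real.exp_pos _).le) h1)
    rw [← Real.exp_sum]
    apply Real.exp_le_exp.2
    rw [sum_neg_distrib, ← mul_sum]
    have h2 : ∑ p ∈ (PP z').filter (fun p => ¬ p ≤ z), 1 / (p : ℝ) ^ 2 ≤ ∑ n ∈ Ioc z z', 1 / (n : ℝ) ^ 2 := by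
      apply sum_le_sum_of_subset_of_nonneg
      · intro p hp
        rw [mem_filter, mem_PP] at hp
        rw [mem_Ioc]
        omega
      · intro _ _ _; positivity
    have h3 := tail_sq z z' (by omega) hzz
    have h4 : (0 : ℝ) ≤ 1 / (z' : ℝ) := by positivity
    have h5 : (((k + 1 : ℕ) : ℝ)) ^ 2 * ∑ p ∈ (PP z').filter (fun p => ¬ p ≤ z), 1 / (p : ℝ) ^ 2 ≤ (((k + 1 : ℕ) : ℝ)) ^ 2 * (1 / z) :=
      mul_le_mul_of_nonneg_left (by linarith) (by positivity)
    rw [mul_one_div] at h5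
    linarith
  · have h1 : ∀ p ∈ (PP z').filter (fun p => ¬ p ≤ z), Fp a p ≤ Real.exp (if p ∈ badP a then 2 * ((k + 1 : ℕ) : ℝ) / p else 0) := by
      intro p hp
      rw [mem_filter, mem_PP] at hp
      exact (Fp_bounds a ha hab p hp.1.2.1 (by omega)).2
    have h0 : ∀ p ∈ (PP z').filter (fun p => ¬ p ≤ z), 0 ≤ Fp a p := by
      intro p hp
      rw [mem_filter, mem_PP] at hp
      exact Fp_nonneg a p hp.1.2.1
    refine (prod_le_prod h0 h1).trans ?_
    rw [← Real.exp_sum]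
    apply Real.exp_le_exp.2
    rw [← sum_filter]
    calc ∑ p ∈ ((PP z').filter (fun p => ¬ p ≤ z)).filter (fun p => p ∈ badP a), 2 * ((k + 1 : ℕ) : ℝ) / p
        ≤ ∑ _p ∈ ((PP z').filter (fun p => ¬ p ≤ z)).filter (fun p => p ∈ badP a), 2 * ((k + 1 : ℕ) : ℝ) / z := by
          apply sum_le_sum
          intro p hp
          rw [mem_filter, mem_filter] at hp
          apply div_le_div_of_nonneg_left (by positivity) hz0
          exact_mod_cast (by omega : z ≤ p)
      _ = ((((PP z').filter (fun p => ¬ p ≤ z)).filter (fun p => p ∈ badP a)).card : ℝ) * (2 * ((k + 1 : ℕ) : ℝ) / z) := by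
          rw [sum_const, nsmul_eq_mul]
      _ ≤ ((badP a).card : ℝ) * (2 * ((k + 1 : ℕ) : ℝ) / z) := by
          apply mul_le_mul_of_nonneg_right _ (by positivity)
          exact_mod_cast card_le_card (fun p hp => (mem_filter.1 hp).2)
      _ = _ := by ring

lemma stepP {k : ℕ} (a : Fin k → ℤ) (ha : ∀ i, a i ≠ 0) (hab : ∀ i j, i ≠ j → a i ≠ a j) (z z' : ℕ) (hz : 3 * (k + 1) ≤ z)
    (hK : Kc a ≤ z) (hzz : z ≤ z') : |sP a z' - sP a z| ≤ sP a z * (Kc a / z) := by
  obtain ⟨R, hR, h1, h2⟩ := tailP a ha hab z z' hz hzz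
  have hz0 : (0 : ℝ) < z := by exact_mod_cast (by omega : 0 < z)
  have hs := sP_nonneg a z
  have hA : 0 ≤ ((k + 1 : ℕ) : ℝ) ^ 2 := by positivity
  have hB : 0 ≤ 4 * ((k + 1 : ℕ) : ℝ) * (badP a).card := by positivity
  have hKd : Kc a = ((k + 1 : ℕ) : ℝ) ^ 2 + 4 * ((k + 1 : ℕ) : ℝ) * (badP a).card := rfl
  have e1 : 1 - Kc a / z ≤ R := by
    refine le_trans ?_ h1
    have h3 := Real.add_one_le_exp (-(((k + 1 : ℕ) : ℝ) ^ 2 / z))
    have h4 : ((k + 1 : ℕ) : ℝ) ^ 2 / z ≤ Kc a / z := div_le_div_of_nonneg_right (by linarith) hz0.le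
    linarith
  have e2 : R ≤ 1 + Kc a / z := by
    refine h2.trans ?_
    set t := 2 * ((k + 1 : ℕ) : ℝ) * (badP a).card / z with ht
    have ht0 : 0 ≤ t := by positivity
    have ht1 : 2 * t ≤ Kc a / z := by
      rw [ht, mul_div_assoc']
      apply div_le_div_of_nonneg_right _ hz0.le
      linarith
    have ht2 : Kc a / z ≤ 1 := by rw [div_le_one hz0]; exact hK
    have h3 := Real.abs_exp_sub_one_sub_id_le (x := t) (by rw [abs_of_nonneg ht0]; linarith)
    have h4 := (abs_le.1 h3).2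
    nlinarith
  have e : sP a z' - sP a z = sP a z * (R - 1) := by rw [hR]; ring
  rw [e, abs_mul, abs_of_nonneg hs]
  apply mul_le_mul_of_nonneg_left _ hs
  rw [abs_le]
  constructor <;> linarith

theorem limP {k : ℕ} (a : Fin k → ℤ) (ha : ∀ i, a i ≠ 0) (hab : ∀ i j, i ≠ j → a i ≠ a j) :
    ∃ S : ℝ, Filter.Tendsto (fun z => sP a z) Filter.atTop (nhds S) ∧
      ∀ z : ℕ, 3 * (k + 1) ≤ z → Kc a ≤ z → |S - sP a z| ≤ sP a z * (Kc a / z) := by
  have hK0 : 0 ≤ Kc a := by unfold Kc; positivity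
  have hcau : CauchySeq (fun z => sP a z) := by
    rw [Metric.cauchySeq_iff']
    intro ε hε
    set z0 : ℕ := max (3 * (k + 1)) ⌈Kc a⌉₊ with hz0
    have hz0K : Kc a ≤ z0 := (Nat.le_ceil _).trans (by exact_mod_cast le_max_right _ _)
    have hz03 : 3 * (k + 1) ≤ z0 := le_max_left _ _
    have hs0 := sP_nonneg a z0
    obtain ⟨M, hM⟩ := exists_nat_gt (2 * sP a z0 * Kc a / ε)
    refine ⟨max z0 (M + 1), fun n hn => ?_⟩
    set Z := max z0 (M + 1) with hZ
    have hZ0 : z0 ≤ Z := le_max_left _ _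
    have hZM : M + 1 ≤ Z := le_max_right _ _
    have hZr : (0 : ℝ) < Z := by exact_mod_cast (by omega : 0 < Z)
    have h1 := stepP a ha hab Z n (hz03.trans hZ0) (hz0K.trans (by exact_mod_cast hZ0)) hn
    have h2 := stepP a ha hab z0 Z hz03 hz0K hZ0
    have hz0r : (0 : ℝ) < z0 := by exact_mod_cast (by omega : 0 < z0)
    have h3 : sP a Z ≤ 2 * sP a z0 := by
      have h4 := (abs_le.1 h2).2
      have h5 : Kc a / z0 ≤ 1 := by rw [div_le_one hz0r]; exact hz0K
      nlinarith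
    rw [Real.dist_eq]
    refine lt_of_le_of_lt h1 ?_
    have h4 : sP a Z * (Kc a / Z) ≤ 2 * sP a z0 * (Kc a / Z) := mul_le_mul_of_nonneg_right h3 (by positivity)
    refine lt_of_le_of_lt h4 ?_
    rw [mul_div_assoc', div_lt_iff₀ hZr]
    rw [div_lt_iff₀ hε] at hM
    have h5 : (M : ℝ) ≤ Z := by exact_mod_cast (by omega : M ≤ Z)
    nlinarith
  obtain ⟨S, hS⟩ := cauchySeq_tendsto_of_complete hcau
  refine ⟨S, hS, fun z hz hK => ?_⟩
  have h1 : Filter.Tendsto (fun z' => |sP a z' - sP a z|) Filter.atTop (nhds |S - sP a z|) :=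
    (hS.sub_const _).abs
  apply le_of_tendsto h1
  filter_upwards [Filter.eventually_ge_atTop z] with z' hz'
  exact stepP a ha hab z z' hz hK hz'

/-- the shifts, translated by the first one -/
def aof {k : ℕ} (h : Fin (k + 1) → ℕ) (i : Fin k) : ℤ := (h i.succ : ℤ) - h 0

lemma nu_eq {k : ℕ} (h : Fin (k + 1) → ℕ) (p : ℕ) (hp : 0 < p) : nu h p = nuP (aof h) p := by
  unfold nu nuP
  apply card_bij' (fun r _ => (r + h 0) % p) (fun r _ => (r + (p - h 0 % p)) % p)
  · intro r hr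
    rw [mem_filter, mem_range] at hr
    rw [mem_filter, mem_range]
    refine ⟨Nat.mod_lt _ hp, ?_⟩
    obtain ⟨i, hi⟩ := hr.2
    refine Fin.cases ?_ ?_ i hi
    · intro h0
      left
      rw [Nat.dvd_iff_mod_eq_zero, Nat.mod_mod]
      exact Nat.mod_eq_zero_of_dvd h0
    · intro j hj
      right
      refine ⟨j, ?_⟩
      unfold aof
      have h1 : (((r + h 0) % p : ℕ) : ℤ) = (r : ℤ) + h 0 - p * ((r + h 0) / p : ℕ) := by
        have := Nat.mod_add_div (r + h 0) p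
        zify at this ⊢
        linarith
      rw [h1]
      have h2 : (p : ℤ) ∣ (r : ℤ) + h j.succ := by exact_mod_cast hj
      have e : (r : ℤ) + h 0 - p * ((r + h 0) / p : ℕ) + ((h j.succ : ℤ) - h 0) =
          ((r : ℤ) + h j.succ) - p * ((r + h 0) / p : ℕ) := by ring
      rw [e]
      exact dvd_sub h2 (dvd_mul_right _ _)
  · intro r hr
    rw [mem_filter, mem_range] at hr
    rw [mem_filter, mem_range]
    refine ⟨Nat.mod_lt _ hp, ?_⟩
    have hm : h 0 % p < p := Nat.mod_lt _ hp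
    have h1 : (((r + (p - h 0 % p)) % p : ℕ) : ℤ) + h 0 =
        (r : ℤ) + p * (1 + (h 0 / p : ℕ) - ((r + (p - h 0 % p)) / p : ℕ)) := by
      have h2 := Nat.mod_add_div (r + (p - h 0 % p)) p
      have h3 := Nat.mod_add_div (h 0) p
      zify [hm.le] at h2 h3 ⊢
      linarith
    rcases hr.2 with h0 | ⟨j, hj⟩
    · refine ⟨0, ?_⟩
      have h2 : (p : ℤ) ∣ (r : ℤ) := by exact_mod_cast h0
      have h3 : (p : ℤ) ∣ (((r + (p - h 0 % p)) % p : ℕ) : ℤ) + h 0 := by
        rw [h1]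
        exact dvd_add h2 (dvd_mul_right _ _)
      exact_mod_cast h3
    · refine ⟨j.succ, ?_⟩
      unfold aof at hj
      have h3 : (p : ℤ) ∣ (((r + (p - h 0 % p)) % p : ℕ) : ℤ) + h j.succ := by
        have e : (((r + (p - h 0 % p)) % p : ℕ) : ℤ) + h j.succ =
            ((((r + (p - h 0 % p)) % p : ℕ) : ℤ) + h 0) + ((h j.succ : ℤ) - h 0) := by ring
        rw [e, h1]
        have e2 : (r : ℤ) + p * (1 + (h 0 / p : ℕ) - ((r + (p - h 0 % p)) / p : ℕ)) + ((h j.succ : ℤ) - h 0) =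
            ((r : ℤ) + ((h j.succ : ℤ) - h 0)) + p * (1 + (h 0 / p : ℕ) - ((r + (p - h 0 % p)) / p : ℕ)) := by ring
        rw [e2]
        exact dvd_add hj (dvd_mul_right _ _)
      exact_mod_cast h3
  · intro r hr
    rw [mem_filter, mem_range] at hr
    have hm : h 0 % p < p := Nat.mod_lt _ hp
    have h1 : ((r + h 0) % p + (p - h 0 % p)) ≡ r [MOD p] := by
      have h2 : (r + h 0) % p + (p - h 0 % p) ≡ (r + h 0) + (p - h 0 % p) [MOD p] :=
        (Nat.mod_modEq _ _).add_right _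
      have h3 : (r + h 0) + (p - h 0 % p) = r + p * (1 + h 0 / p) := by
        have h4 := Nat.mod_add_div (h 0) p
        have h5 : p * (1 + h 0 / p) = p + p * (h 0 / p) := by ring
        omega
      rw [h3] at h2
      refine h2.trans ?_
      unfold Nat.ModEq
      rw [Nat.add_mul_mod_self_left]
    unfold Nat.ModEq at h1
    rw [h1, Nat.mod_eq_of_lt hr.1]
  · intro r hr
    rw [mem_filter, mem_range] at hr
    have hm : h 0 % p < p := Nat.mod_lt _ hp
    have h1 : ((r + (p - h 0 % p)) % p + h 0) ≡ r [MOD p] := by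
      have h2 : (r + (p - h 0 % p)) % p + h 0 ≡ (r + (p - h 0 % p)) + h 0 [MOD p] :=
        (Nat.mod_modEq _ _).add_right _
      have h3 : (r + (p - h 0 % p)) + h 0 = r + p * (1 + h 0 / p) := by
        have h4 := Nat.mod_add_div (h 0) p
        have h5 : p * (1 + h 0 / p) = p + p * (h 0 / p) := by ring
        omega
      rw [h3] at h2
      refine h2.trans ?_
      unfold Nat.ModEq
      rw [Nat.add_mul_mod_self_left]
    unfold Nat.ModEq at h1
    rw [h1, Nat.mod_eq_of_lt hr.1]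

lemma sing_eq {k : ℕ} (D : Finset ℕ) (h : Fin (k + 1) → ℕ) (z : ℕ) : sing D h z = d10 D h * sP (aof h) z := by
  unfold sing sP
  congr 1
  apply prod_congr rfl
  intro p hp
  unfold Fp
  rw [nu_eq h p (mem_PP.1 hp).2.1.pos]

lemma d10_nonneg {s : ℕ} (D : Finset ℕ) (h : Fin s → ℕ) : 0 ≤ d10 D h := by
  unfold d10
  positivity

lemma d10_le {s : ℕ} (D : Finset ℕ) (h : Fin s → ℕ) : d10 D h ≤ 3 ^ s := by
  unfold d10
  rw [div_le_iff₀ (by positivity), ← mul_pow]
  have h1 : (((D.erase 0).filter fun a => ∀ i, (a + h i).Coprime 10).card : ℝ) / (D.erase 0).card ≤ 1 := by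
    apply div_le_one_of_le₀ _ (Nat.cast_nonneg _)
    exact_mod_cast card_filter_le _ _
  exact h1.trans (one_le_pow₀ (by norm_num))

lemma d10_ge {s : ℕ} (D : Finset ℕ) (hD : DigitSet D) (h : Fin s → ℕ) (hA : Adm D h) : 1 / 9 ≤ d10 D h := by
  obtain ⟨⟨a, ha, ha0, hc⟩, _⟩ := hA
  unfold d10
  have h1 : (1 : ℝ) ≤ (((D.erase 0).filter fun a => ∀ i, (a + h i).Coprime 10).card : ℝ) := by
    have : 0 < ((D.erase 0).filter fun a => ∀ i, (a + h i).Coprime 10).card :=
      card_pos.2 ⟨a, mem_filter.2 ⟨mem_erase.2 ⟨ha0, ha⟩, hc⟩⟩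
    exact_mod_cast this
  have h2 : ((D.erase 0).card : ℝ) ≤ 9 := by
    have h3 : D.erase 0 ⊆ Ico 1 10 := by
      intro x hx
      rw [mem_erase] at hx
      rw [mem_Ico]
      have := hD.lt x hx.2
      omega
    have h4 := card_le_card h3
    rw [Nat.card_Ico] at h4
    exact_mod_cast h4
  have h3 : (0 : ℝ) < (D.erase 0).card := by
    exact_mod_cast card_pos.2 ⟨a, mem_erase.2 ⟨ha0, ha⟩⟩
  have h4 : (1 / 9 : ℝ) ≤ (((D.erase 0).filter fun a => ∀ i, (a + h i).Coprime 10).card : ℝ) / (D.erase 0).card := by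
    rw [div_le_div_iff₀ (by norm_num) h3]
    linarith
  refine h4.trans ?_
  rw [le_div_iff₀ (by positivity)]
  exact mul_le_of_le_one_right (by positivity) (pow_le_one₀ (by norm_num) (by norm_num))

lemma pz_split (z : ℕ) (hz : 5 ≤ z) : pz z = insert 2 (insert 5 (PP z)) := by
  ext p
  rw [mem_pz, mem_insert, mem_insert, mem_PP]
  constructor
  · rintro ⟨h1, h2⟩
    by_cases h3 : p = 2
    · exact Or.inl h3
    · by_cases h4 : p = 5
      · exact Or.inr (Or.inl h4)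
      · exact Or.inr (Or.inr ⟨h1, h2, h3, h4⟩)
  · rintro (h | h | h)
    · rw [h]; exact ⟨by omega, Nat.prime_two⟩
    · rw [h]; exact ⟨by omega, Nat.prime_five⟩
    · exact ⟨h.1, h.2.1⟩

lemma prod_pz_split (z : ℕ) (hz : 5 ≤ z) (f : ℕ → ℝ) : ∏ p ∈ pz z, f p = f 2 * (f 5 * ∏ p ∈ PP z, f p) := by
  rw [pz_split z hz, prod_insert, prod_insert]
  · intro h
    exact (mem_PP.1 h).2.2.2 rfl
  · intro h
    rw [mem_insert] at h
    rcases h with h | h
    · omega
    · exact (mem_PP.1 h).2.2.1 rfl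

/-- upper bound -/
lemma sP_le {k : ℕ} (a : Fin k → ℤ) (z : ℕ) : sP a z ≤ ((Vz z)⁻¹) ^ (k + 1) := by
  unfold sP Vz
  rw [← prod_inv_distrib, ← prod_pow]
  have hsub : PP z ⊆ pz z := by
    intro p hp
    rw [mem_PP] at hp
    exact mem_pz.2 ⟨hp.1, hp.2.1⟩
  have hq : ∀ p ∈ pz z, 0 < 1 - 1 / (p : ℝ) ∧ 1 - 1 / (p : ℝ) ≤ 1 := by
    intro p hp
    have hp2 : (2 : ℝ) ≤ p := by exact_mod_cast (mem_pz.1 hp).2.two_le
    have hp0 : (0 : ℝ) < p := by linarith
    refine ⟨by rw [sub_pos, div_lt_one hp0]; linarith, ?_⟩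
    have : 0 ≤ 1 / (p : ℝ) := by positivity
    linarith
  calc ∏ p ∈ PP z, Fp a p ≤ ∏ p ∈ PP z, ((1 - 1 / (p : ℝ))⁻¹) ^ (k + 1) := by
        apply Finset.prod_le_prod
        · intro p hp
          exact Fp_nonneg a p (mem_PP.1 hp).2.1
        · intro p hp
          have h1 := hq p (hsub hp)
          unfold Fp
          rw [div_eq_mul_inv, inv_pow]
          apply mul_le_of_le_one_left (inv_nonneg.2 (pow_nonneg h1.1.le _))
          have : 0 ≤ (nuP a p : ℝ) / p := by positivity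
          linarith
    _ ≤ ∏ p ∈ pz z, ((1 - 1 / (p : ℝ))⁻¹) ^ (k + 1) := by
        apply prod_le_prod_of_subset_of_one_le hsub
        · intro p hp
          exact pow_nonneg (inv_nonneg.2 (hq p (hsub hp)).1.le) _
        · intro p hp _
          exact one_le_pow₀ ((one_le_inv₀ (hq p hp).1).2 (hq p hp).2)

/-- lower bound -/
lemma sP_ge {k : ℕ} (D : Finset ℕ) (h : Fin (k + 1) → ℕ) (hA : Adm D h) (z : ℕ) (hz : 5 ≤ z) :
    (1 / (3 * ((k + 1 : ℕ) : ℝ))) ^ (3 * (k + 1)) * Real.exp (-(2 * ((k + 1 : ℕ) : ℝ) ^ 2)) / 4 ^ (k + 1) ≤ sP (aof h) z := by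
  classical
  set ν : ℕ → ℕ := fun p => if p = 2 ∨ p = 5 then 0 else nuP (aof h) p with hν
  have h1 : ∀ p ∈ pz z, ν p ≤ k + 1 := by
    intro p hp
    rw [hν]
    simp only
    split_ifs
    · exact Nat.zero_le _
    · exact nuP_le (aof h) p (mem_pz.1 hp).2
  have h2 : ∀ p ∈ pz z, ν p + 1 ≤ p := by
    intro p hp
    have hpp := (mem_pz.1 hp).2
    rw [hν]
    simp only
    split_ifs with h3
    · exact hpp.one_le
    · push Not at h3
      obtain ⟨r, hr⟩ := hA.2 p hpp h3.1 h3.2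
      rw [← nu_eq h p hpp.pos]
      unfold nu
      have h4 : (range p).filter (fun r => ∃ i, p ∣ r + h i) ⊆ (range p).erase (r % p) := by
        intro t ht
        rw [mem_filter] at ht
        rw [mem_erase]
        refine ⟨?_, ht.1⟩
        rintro rfl
        obtain ⟨i, hi⟩ := ht.2
        apply hr i
        have h5 : r % p + h i ≡ r + h i [MOD p] := (Nat.mod_modEq r p).add_right _
        exact (Nat.modEq_zero_iff_dvd.1 (h5.symm.trans (Nat.modEq_zero_iff_dvd.2 hi)))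
      have h5 := card_le_card h4
      rw [card_erase_of_mem (mem_range.2 (Nat.mod_lt _ hpp.pos)), card_range] at h5
      have := hpp.pos
      omega
  have h3 := local_low (k + 1) (by omega) ν z h1 h2
  rw [prod_pz_split z hz] at h3
  have e1 : ν 2 = 0 := by rw [hν]; simp
  have e2 : ν 5 = 0 := by rw [hν]; simp
  have e3 : ∏ p ∈ PP z, (1 - (ν p : ℝ) / p) / (1 - 1 / (p : ℝ)) ^ (k + 1) = sP (aof h) z := by
    unfold sP
    apply prod_congr rfl
    intro p hp
    have hp' := (mem_PP.1 hp).2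
    unfold Fp
    rw [hν]
    simp only
    rw [if_neg (by push Not; exact hp'.2)]
  rw [e1, e2, e3] at h3
  have h4 : (1 - ((0 : ℕ) : ℝ) / ((2 : ℕ) : ℝ)) / (1 - 1 / ((2 : ℕ) : ℝ)) ^ (k + 1) *
      ((1 - ((0 : ℕ) : ℝ) / ((5 : ℕ) : ℝ)) / (1 - 1 / ((5 : ℕ) : ℝ)) ^ (k + 1) * sP (aof h) z) ≤ 4 ^ (k + 1) * sP (aof h) z := by
    rw [← mul_assoc]
    apply mul_le_mul_of_nonneg_right _ (sP_nonneg _ _)
    norm_num
    rw [← mul_inv, ← mul_pow, ← inv_pow]
    apply pow_le_pow_left₀ (by norm_num)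
    norm_num
  rw [div_le_iff₀ (by positivity), mul_comm (sP (aof h) z)]
  exact h3.trans h4

/-- **package SNG** -/
theorem sng : S_SNG := by
  intro D hD s
  rcases s with _ | k
  · -- no shifts
    refine ⟨1 / 9, by norm_num, fun U => ⟨0, fun E _ => ⟨3, fun N hN z _ _ h _ _ => ?_⟩⟩⟩
    have hs : ∀ z, sing D h z = d10 D h := by
      intro z
      unfold sing
      have h1 : ∀ p, nu h p = 0 := by
        intro p
        unfold nu
        rw [card_eq_zero, filter_eq_empty_iff]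
        rintro r _ ⟨i, _⟩
        exact i.elim0
      simp [h1]
    refine ⟨d10 D h, ?_, ?_, fun hA => d10_ge D hD h hA⟩
    · have : sing D h = fun _ => d10 D h := funext hs
      rw [this]
      exact tendsto_const_nhds
    · rw [hs, sub_self, abs_zero]
      have : 0 ≤ Real.log N := Real.log_natCast_nonneg _
      positivity
  · obtain ⟨c1, hc1⟩ : ∃ c1 : ℝ, c1 = (1 / (3 * ((k + 1 : ℕ) : ℝ))) ^ (3 * (k + 1)) * Real.exp (-(2 * ((k + 1 : ℕ) : ℝ) ^ 2)) / 4 ^ (k + 1) := ⟨_, rfl⟩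
    have hc10 : 0 < c1 := by rw [hc1]; positivity
    refine ⟨1 / 9 * c1, by positivity, fun U => ⟨U + k + 5, fun E hE => ?_⟩⟩
    obtain ⟨n1, h1⟩ := Vz_inv_small (E + 1)
    have hlim : Filter.Tendsto (fun N : ℕ => Real.log (N : ℝ)) Filter.atTop Filter.atTop :=
      Real.tendsto_log_atTop.comp (tendsto_natCast_atTop_atTop (R := ℝ))
    obtain ⟨C, hC⟩ : ∃ C : ℝ, C = ((k + 1 : ℕ) : ℝ) ^ 2 + 4 * ((k + 1 : ℕ) : ℝ) * ((k + k * k : ℕ) : ℝ) * 2 := ⟨_, rfl⟩
    have hC0 : 0 ≤ C := by rw [hC]; positivity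
    obtain ⟨n2, h2⟩ := Filter.eventually_atTop.1 (hlim.eventually_ge_atTop (1 + C + 3 ^ (k + 1) + 3 * ((k + 1 : ℕ) : ℝ)))
    refine ⟨n1 + n2 + 2, fun N hN z hz1 hz2 h hh hinj => ?_⟩
    have hL := h2 N (by omega)
    obtain ⟨L, hLd⟩ : ∃ L, L = Real.log (N : ℝ) := ⟨_, rfl⟩
    rw [← hLd] at hL hz1 hz2
    have hk0 : (0 : ℝ) ≤ ((k + 1 : ℕ) : ℝ) := Nat.cast_nonneg _
    have h30 : (0 : ℝ) < 3 ^ (k + 1) := by positivity
    have hL1 : 1 ≤ L := by linarith
    have hL0 : 0 < L := by linarith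
    have hz0 : (0 : ℝ) < z := lt_of_lt_of_le (by positivity) hz1
    have hzn : 1 ≤ z := by exact_mod_cast hz0
    have hV := h1 N (by omega) z hzn (by rw [← hLd]; exact hz2)
    rw [← hLd] at hV
    -- the shifts
    have ha : ∀ i, aof h i ≠ 0 := by
      intro i h0
      unfold aof at h0
      have h3 : h i.succ = h 0 := by omega
      exact Fin.succ_ne_zero i (hinj h3)
    have hab : ∀ i j, i ≠ j → aof h i ≠ aof h j := by
      intro i j hij h0
      unfold aof at h0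
      have h3 : h i.succ = h j.succ := by omega
      exact hij (Fin.succ_injective _ (hinj h3))
    have hb := card_badP (aof h) N (by
      intro i
      unfold aof
      have h3 := hh i.succ
      have h4 := hh 0
      omega) (by
      intro i j
      unfold aof
      have h3 := hh i.succ
      have h4 := hh j.succ
      omega)
    have hlog2 : (Nat.log 2 N : ℝ) ≤ 2 * L := by
      have h4 : (2 : ℝ) ^ Nat.log 2 N ≤ N := by exact_mod_cast Nat.pow_log_le_self 2 (by omega : N ≠ 0)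
      have h6 := Real.log_le_log (by positivity) h4
      rw [Real.log_pow, ← hLd] at h6
      have := Real.log_two_gt_d9
      have h7 : (0 : ℝ) ≤ Nat.log 2 N := Nat.cast_nonneg _
      nlinarith
    have hKc : Kc (aof h) ≤ C * L := by
      have h3 : ((badP (aof h)).card : ℝ) ≤ ((k + k * k : ℕ) : ℝ) * (2 * L) := by
        have h4 : ((badP (aof h)).card : ℝ) ≤ ((k + k * k : ℕ) : ℝ) * (Nat.log 2 N : ℝ) := by exact_mod_cast hb
        exact h4.trans (mul_le_mul_of_nonneg_left hlog2 (Nat.cast_nonneg _))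
      unfold Kc
      have h4 : 4 * ((k + 1 : ℕ) : ℝ) * ((badP (aof h)).card : ℝ) ≤ 4 * ((k + 1 : ℕ) : ℝ) * (((k + k * k : ℕ) : ℝ) * (2 * L)) :=
        mul_le_mul_of_nonneg_left h3 (by positivity)
      have h5 : ((k + 1 : ℕ) : ℝ) ^ 2 ≤ ((k + 1 : ℕ) : ℝ) ^ 2 * L := le_mul_of_one_le_right (by positivity) hL1
      have e : C * L = ((k + 1 : ℕ) : ℝ) ^ 2 * L + 4 * ((k + 1 : ℕ) : ℝ) * (((k + k * k : ℕ) : ℝ) * (2 * L)) := by
        rw [hC]; ring
      rw [e]
      linarith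
    have hK0 : 0 ≤ Kc (aof h) := by unfold Kc; positivity
    have hLE : L ^ 2 ≤ L ^ E := pow_le_pow_right₀ hL1 (by omega)
    have hKz : Kc (aof h) ≤ z := by
      refine hKc.trans ?_
      have : C * L ≤ L * L := mul_le_mul_of_nonneg_right (by linarith) hL0.le
      linarith [sq L]
    have hz3 : 3 * (k + 1) ≤ z := by
      have h3 : 3 * ((k + 1 : ℕ) : ℝ) ≤ z := by
        have h4 : L ≤ L ^ 2 := by nlinarith
        linarith
      exact_mod_cast h3
    obtain ⟨S', hS1, hS2⟩ := limP (aof h) ha hab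
    have hd0 := d10_nonneg D h
    refine ⟨d10 D h * S', ?_, ?_, ?_⟩
    · have : sing D h = fun z => d10 D h * sP (aof h) z := funext (sing_eq D h)
      rw [this]
      exact hS1.const_mul _
    · rw [sing_eq, ← mul_sub, abs_mul, abs_of_nonneg hd0]
      have h3 := hS2 z hz3 hKz
      have h4 := sP_le (aof h) z
      have hVi : 0 ≤ (Vz z)⁻¹ := (inv_pos.2 (Vz_pos z)).le
      have h5 : sP (aof h) z ≤ L ^ (k + 1) := h4.trans (pow_le_pow_left₀ hVi hV _)
      have hsP := sP_nonneg (aof h) z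
      calc d10 D h * |S' - sP (aof h) z| ≤ 3 ^ (k + 1) * (L ^ (k + 1) * (C * L / L ^ E)) := by
            apply mul_le_mul (d10_le D h) _ (abs_nonneg _) (by positivity)
            refine h3.trans ?_
            apply mul_le_mul h5 _ (by positivity) (by positivity)
            exact div_le_div₀ (by positivity) hKc (by positivity) hz1
        _ = (3 ^ (k + 1) * C) * L ^ (k + 2) / L ^ E := by ring
        _ ≤ (L * L) * L ^ (k + 2) / L ^ E := by
            apply div_le_div_of_nonneg_right _ (by positivity)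
            apply mul_le_mul_of_nonneg_right _ (by positivity)
            apply mul_le_mul (by linarith) (by linarith) hC0 hL0.le
        _ ≤ 1 / L ^ U := by
            rw [div_le_div_iff₀ (by positivity) (by positivity), one_mul, ← pow_two, ← pow_add, ← pow_add]
            exact pow_le_pow_right₀ hL1 (by omega)
        _ = _ := by rw [hLd]
    · intro hA
      have h3 : c1 ≤ S' := by
        apply ge_of_tendsto hS1
        filter_upwards [Filter.eventually_ge_atTop 5] with z' hz'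
        rw [hc1]
        exact sP_ge D h hA z' hz'
      have h4 := d10_ge D hD h hA
      exact mul_le_mul h4 h3 hc10.le hd0

end Pool.Agent.P8H65.PS
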