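import Pool.Agent.H373R2.T7.Crt
import Pool.Agent.P8H65.PS.Sng

set_option autoImplicit false

/-! Package MAIN of the project PS: the main term. -/

namespace Pool.Agent.P8H65.PS
open Finset Filter
open Pool.Agent.H373R2.T7
open Pool.Agent.P8H18.PS (PP nu d10 sing Adm DigitSet Pal S_SNG S_MAIN S_DEC S_CARD)

/-- the condition at `p` -/
def Ev {s : ℕ} (h : Fin s → ℕ) (p v : ℕ) : Prop := ∃ i, p ∣ v + h i

instance {s : ℕ} (h : Fin s → ℕ) (p v : ℕ) : Decidable (Ev h p v) := by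
  unfold Ev
  infer_instance

lemma Ev_mod {s : ℕ} (h : Fin s → ℕ) (p v : ℕ) : Ev h p (v % p) ↔ Ev h p v := by
  unfold Ev
  apply exists_congr
  intro i
  have h1 : v % p + h i ≡ v + h i [MOD p] := (Nat.mod_modEq v p).add_right _
  exact h1.dvd_iff (dvd_refl p)

lemma nu_Ev {s : ℕ} (h : Fin s → ℕ) (p : ℕ) : ((range p).filter fun r => Ev h p r).card = nu h p := rfl

lemma nu_le {s : ℕ} (h : Fin s → ℕ) (p : ℕ) : nu h p ≤ p := by
  unfold nu
  exact (card_filter_le _ _).trans (by rw [card_range])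

lemma nu_le_s {s : ℕ} (h : Fin s → ℕ) (p : ℕ) (hp : p.Prime) : nu h p ≤ s := by
  have h1 : ((range p).filter fun r => ∃ i, p ∣ r + h i) ⊆ univ.image (fun i : Fin s => (p - h i % p) % p) := by
    intro r hr
    rw [mem_filter, mem_range] at hr
    obtain ⟨i, hi⟩ := hr.2
    rw [mem_image]
    refine ⟨i, mem_univ _, ?_⟩
    have hm : h i % p < p := Nat.mod_lt _ hp.pos
    have h2 : p ∣ r + h i % p := by
      have h3 : r + h i % p ≡ r + h i [MOD p] := (Nat.mod_modEq _ _).add_left _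
      exact (h3.dvd_iff (dvd_refl p)).2 hi
    obtain ⟨t, ht⟩ := h2
    have ht2 : t < 2 := by
      by_contra hc
      push Not at hc
      have : p * 2 ≤ p * t := Nat.mul_le_mul_left _ hc
      omega
    interval_cases t
    · have hr0 : r = 0 := by omega
      have hh0 : h i % p = 0 := by omega
      rw [hr0, hh0, Nat.sub_zero, Nat.mod_self]
    · have hr0 : p - h i % p = r := by omega
      rw [hr0, Nat.mod_eq_of_lt hr.1]
  unfold nu
  refine (card_le_card h1).trans (card_image_le.trans ?_)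
  rw [card_univ, Fintype.card_fin]

/-- the number of the palindromes with the conditions at the primes of `S` -/
lemma count_S {s : ℕ} (D : Finset ℕ) (L a : ℕ) (q : ℝ) (hdec : ∀ d : ℕ, d.Coprime 10 → ∀ r : ℕ,
    |(((Pal D L).filter fun v => v % 10 = a ∧ v ≡ r [MOD d]).card : ℝ) - (D.card : ℝ) ^ L / d| ≤
      (D.card : ℝ) ^ L * q ^ ((L - 1) / (Nat.log 10 d + 3)))
    (h : Fin s → ℕ) (S : Finset ℕ) (hS : ∀ p ∈ S, p.Prime ∧ p ≠ 2 ∧ p ≠ 5) (hq : 0 ≤ q) :
    |((((Pal D L).filter fun v => v % 10 = a).filter fun v => ∀ p ∈ S, Ev h p v).card : ℝ) -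
      (D.card : ℝ) ^ L * ∏ p ∈ S, ((nu h p : ℝ) / p)| ≤
      ((∏ p ∈ S, p : ℕ) : ℝ) * ((D.card : ℝ) ^ L * q ^ ((L - 1) / (Nat.log 10 (∏ p ∈ S, p) + 3))) := by
  obtain ⟨d, hd⟩ : ∃ d, d = ∏ p ∈ S, p := ⟨_, rfl⟩
  rw [← hd]
  have hSp : ∀ p ∈ S, p.Prime := fun p hp => (hS p hp).1
  have hd0 : 0 < d := by
    rw [hd]
    exact Nat.pos_of_ne_zero (prod_ne_zero_iff.2 fun p hp => (hSp p hp).ne_zero)
  have hd0r : (0 : ℝ) < d := by exact_mod_cast hd0
  have hcop : d.Coprime 10 := by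
    rw [hd]
    apply Nat.Coprime.prod_left
    intro p hp
    obtain ⟨h1, h2, h3⟩ := hS p hp
    have e : (10 : ℕ) = 2 * 5 := by norm_num
    rw [e]
    apply Nat.Coprime.mul_right
    · exact (Nat.coprime_primes h1 Nat.prime_two).2 h2
    · exact (Nat.coprime_primes h1 Nat.prime_five).2 h3
  obtain ⟨Cl, hCl⟩ : ∃ Cl, Cl = (range d).filter (fun n => ∀ p ∈ S, Ev h p (n % p)) := ⟨_, rfl⟩
  have hcard : Cl.card = ∏ p ∈ S, nu h p := by
    rw [hCl, hd, crt_card (fun p a => Ev h p a) S hSp]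
    rfl
  have hdvd : ∀ p ∈ S, p ∣ d := fun p hp => by rw [hd]; exact dvd_prod_of_mem _ hp
  have hsum : ((((Pal D L).filter fun v => v % 10 = a).filter fun v => ∀ p ∈ S, Ev h p v).card) =
      ∑ n ∈ Cl, ((Pal D L).filter fun v => v % 10 = a ∧ v ≡ n [MOD d]).card := by
    rw [card_eq_sum_card_fiberwise (f := fun v => v % d) (t := Cl)]
    · apply sum_congr rfl
      intro n hn
      rw [hCl, mem_filter, mem_range] at hn
      congr 1
      ext v
      simp only [mem_filter]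
      have hmod : v ≡ n [MOD d] ↔ v % d = n := by
        unfold Nat.ModEq
        rw [Nat.mod_eq_of_lt hn.1]
      rw [hmod]
      constructor
      · rintro ⟨⟨⟨h1, h2⟩, _⟩, h3⟩
        exact ⟨h1, h2, h3⟩
      · rintro ⟨h1, h2, h3⟩
        refine ⟨⟨⟨h1, h2⟩, fun p hp => ?_⟩, h3⟩
        have h4 := hn.2 p hp
        rw [← h3, Nat.mod_mod_of_dvd _ (hdvd p hp), Ev_mod] at h4
        exact h4
    · intro v hv
      simp only [coe_filter, Set.mem_ofPred_eq, mem_filter] at hv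
      rw [mem_coe, hCl, mem_filter, mem_range]
      refine ⟨Nat.mod_lt _ hd0, fun p hp => ?_⟩
      simp only
      rw [Nat.mod_mod_of_dvd _ (hdvd p hp), Ev_mod]
      exact hv.2 p hp
  have hprod : (D.card : ℝ) ^ L * ∏ p ∈ S, ((nu h p : ℝ) / p) = ∑ _n ∈ Cl, (D.card : ℝ) ^ L / d := by
    rw [sum_const, nsmul_eq_mul, hcard, prod_div_distrib, hd]
    push_cast
    ring
  rw [hsum, hprod]
  push_cast
  rw [← sum_sub_distrib]
  have hClc : (Cl.card : ℝ) ≤ d := by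
    have : Cl.card ≤ d := by
      rw [hCl]
      exact (card_filter_le _ _).trans (by rw [card_range])
    exact_mod_cast this
  calc |∑ n ∈ Cl, ((((Pal D L).filter fun v => v % 10 = a ∧ v ≡ n [MOD d]).card : ℝ) - (D.card : ℝ) ^ L / d)|
      ≤ ∑ _n ∈ Cl, (D.card : ℝ) ^ L * q ^ ((L - 1) / (Nat.log 10 d + 3)) :=
        (abs_sum_le_sum_abs _ _).trans (sum_le_sum fun n _ => hdec d hcop n)
    _ = (Cl.card : ℝ) * ((D.card : ℝ) ^ L * q ^ ((L - 1) / (Nat.log 10 d + 3))) := by rw [sum_const, nsmul_eq_mul]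
    _ ≤ _ := mul_le_mul_of_nonneg_right hClc (by positivity)

/-- the sieve for the palindromes with a given last digit -/
lemma sieve_a {s : ℕ} (D : Finset ℕ) (L a : ℕ) (q : ℝ) (hdec : ∀ d : ℕ, d.Coprime 10 → ∀ r : ℕ,
    |(((Pal D L).filter fun v => v % 10 = a ∧ v ≡ r [MOD d]).card : ℝ) - (D.card : ℝ) ^ L / d| ≤
      (D.card : ℝ) ^ L * q ^ ((L - 1) / (Nat.log 10 d + 3)))
    (h : Fin s → ℕ) (hq : 0 ≤ q) (hq1 : q ≤ 1) (z r : ℕ) :
    |((((Pal D L).filter fun v => v % 10 = a).filter fun v => ∀ p ∈ PP z, ¬ Ev h p v).card : ℝ) -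
      (D.card : ℝ) ^ L * ∏ p ∈ PP z, (1 - (nu h p : ℝ) / p)| ≤
      (D.card : ℝ) ^ L * (((z : ℝ) + 1) ^ r * (((z : ℝ) + 1) ^ r * q ^ ((L - 1) / (Nat.log 10 ((z + 1) ^ r) + 3))) +
        2 * Real.exp (3 * (s * (1 + Real.log z)) - r)) := by
  have hsub : PP z ⊆ pz z := by
    intro p hp
    rw [mem_PP] at hp
    exact mem_pz.2 ⟨hp.1, hp.2.1⟩
  have hX : (0 : ℝ) ≤ (D.card : ℝ) ^ L := by positivity
  obtain ⟨R, hR⟩ : ∃ R : ℝ, R = ((z : ℝ) + 1) ^ r * ((D.card : ℝ) ^ L * q ^ ((L - 1) / (Nat.log 10 ((z + 1) ^ r) + 3))) := ⟨_, rfl⟩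
  have hR0 : 0 ≤ R := by rw [hR]; positivity
  have hg : ∀ p ∈ PP z, 0 ≤ (nu h p : ℝ) / p ∧ (nu h p : ℝ) / p ≤ 1 := by
    intro p hp
    refine ⟨by positivity, ?_⟩
    apply div_le_one_of_le₀ _ (Nat.cast_nonneg _)
    exact_mod_cast nu_le h p
  have hmain := sieve_gen' ((Pal D L).filter fun v => v % 10 = a) (fun _ => (1 : ℝ)) (fun _ _ => zero_le_one)
    (fun p v => Ev h p v) (PP z) (fun p => (nu h p : ℝ) / p) hg ((D.card : ℝ) ^ L) hX (fun _ => R) r (by
      intro S hST hSr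
      have h1 := count_S D L a q hdec h S (fun p hp => (mem_PP.1 (hST hp)).2) hq
      have e : ∑ v ∈ ((Pal D L).filter fun v => v % 10 = a) with ∀ p ∈ S, Ev h p v, (1 : ℝ) =
          ((((Pal D L).filter fun v => v % 10 = a).filter fun v => ∀ p ∈ S, Ev h p v).card : ℝ) := by
        rw [sum_const, nsmul_eq_mul, mul_one]
      rw [e]
      refine h1.trans ?_
      have h2 : ∏ p ∈ S, p ≤ (z + 1) ^ r := prod_le_pow S z r (hST.trans hsub) hSr
      have h3 : ((∏ p ∈ S, p : ℕ) : ℝ) ≤ ((z : ℝ) + 1) ^ r := by exact_mod_cast h2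
      rw [hR]
      apply mul_le_mul h3 _ (by positivity) (by positivity)
      apply mul_le_mul_of_nonneg_left _ hX
      apply pow_le_pow_of_le_one hq hq1
      apply Nat.div_le_div_left _ (by omega)
      exact Nat.add_le_add_right (Nat.log_mono_right h2) 3)
  have e1 : ∑ v ∈ ((Pal D L).filter fun v => v % 10 = a) with ∀ p ∈ PP z, ¬ Ev h p v, (1 : ℝ) =
      ((((Pal D L).filter fun v => v % 10 = a).filter fun v => ∀ p ∈ PP z, ¬ Ev h p v).card : ℝ) := by
    rw [sum_const, nsmul_eq_mul, mul_one]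
  rw [e1] at hmain
  refine hmain.trans ?_
  have h1 : ∑ j ∈ range (r + 1), ∑ _S ∈ (PP z).powersetCard j, R ≤ ((z : ℝ) + 1) ^ r * R := by
    have h2 : ∑ j ∈ range (r + 1), ∑ _S ∈ (PP z).powersetCard j, R =
        ((∑ j ∈ range (r + 1), ((PP z).powersetCard j).card : ℕ) : ℝ) * R := by
      push_cast
      rw [sum_mul]
      apply sum_congr rfl
      intro j _
      rw [sum_const, nsmul_eq_mul]
    rw [h2]
    apply mul_le_mul_of_nonneg_right _ hR0
    refine (card_small (PP z) r).trans ?_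
    apply pow_le_pow_left₀ (by positivity)
    have h3 : (PP z).card ≤ z := (card_le_card hsub).trans (card_pz_le z)
    have h4 : ((PP z).card : ℝ) ≤ z := by exact_mod_cast h3
    linarith
  have h2 : es (fun p => (nu h p : ℝ) / p) (PP z) r ≤ Real.exp (3 * (s * (1 + Real.log z)) - r) := by
    refine (es_le (fun p hp => (hg p hp).1) r).trans ?_
    apply Real.exp_le_exp.2
    have h3 : ∑ p ∈ PP z, (nu h p : ℝ) / p ≤ s * (1 + Real.log z) := by
      calc ∑ p ∈ PP z, (nu h p : ℝ) / p ≤ ∑ p ∈ PP z, (s : ℝ) * (1 / (p : ℝ)) := by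
            apply sum_le_sum
            intro p hp
            rw [mul_one_div]
            apply div_le_div_of_nonneg_right _ (Nat.cast_nonneg _)
            exact_mod_cast nu_le_s h p (mem_PP.1 hp).2.1
        _ ≤ ∑ p ∈ pz z, (s : ℝ) * (1 / (p : ℝ)) :=
            sum_le_sum_of_subset_of_nonneg hsub (fun _ _ _ => by positivity)
        _ = s * ∑ p ∈ pz z, 1 / (p : ℝ) := by rw [mul_sum]
        _ ≤ _ := mul_le_mul_of_nonneg_left (sum_pz_le z) (Nat.cast_nonneg _)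
    linarith
  have h3 : 2 * (D.card : ℝ) ^ L * es (fun p => (nu h p : ℝ) / p) (PP z) r ≤
      2 * (D.card : ℝ) ^ L * Real.exp (3 * (s * (1 + Real.log z)) - r) :=
    mul_le_mul_of_nonneg_left h2 (by positivity)
  calc ∑ j ∈ range (r + 1), ∑ _S ∈ (PP z).powersetCard j, R + 2 * (D.card : ℝ) ^ L * es (fun p => (nu h p : ℝ) / p) (PP z) r
      ≤ ((z : ℝ) + 1) ^ r * R + 2 * (D.card : ℝ) ^ L * Real.exp (3 * (s * (1 + Real.log z)) - r) := add_le_add h1 h3
    _ = _ := by rw [hR]; ring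

/-- the choice of the parameter of the sieve -/
lemma final_ineq (s E U : ℕ) (c : ℝ) (hc0 : 0 < c) (hc1 : c < 1) : ∃ L₀ : ℕ, ∀ L : ℕ, L₀ ≤ L → ∀ N : ℕ, N = 10 ^ (2 * L + 1) →
    ∀ z : ℕ, 5 ≤ z → (z : ℝ) ≤ Real.log N ^ E → ∃ r : ℕ,
      Real.exp (3 * (s * (1 + Real.log z)) - r) ≤ 1 / Real.log N ^ (U + s + 2) ∧
      ((z : ℝ) + 1) ^ r * (((z : ℝ) + 1) ^ r * (1 - c) ^ ((L - 1) / (Nat.log 10 ((z + 1) ^ r) + 3))) ≤
        1 / Real.log N ^ (U + s + 1) ∧ 4 ≤ Real.log N ∧ (Vz z)⁻¹ ≤ Real.log N := by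
  obtain ⟨N0, h0⟩ := choice s E (U + s + 2) 0
  obtain ⟨n1, h1⟩ := Vz_inv_small E
  obtain ⟨C1, hC1⟩ : ∃ C1 : ℕ, C1 = 3 * (s * (1 + E)) + (U + s + 2) + 1 := ⟨_, rfl⟩
  rw [← hC1] at h0
  obtain ⟨K, hK⟩ : ∃ K : ℝ, K = 3 * C1 * (E + 1) := ⟨_, rfl⟩
  have hK0 : 0 ≤ K := by rw [hK]; positivity
  obtain ⟨M, hM⟩ : ∃ M : ℝ, M = (K + 3) * (1 + (2 * K + (U + s + 1)) / c) := ⟨_, rfl⟩
  have hM0 : 0 ≤ M := by rw [hM]; positivity
  have hlim : Filter.Tendsto (fun N : ℕ => Real.log (N : ℝ)) Filter.atTop Filter.atTop :=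
    Real.tendsto_log_atTop.comp (tendsto_natCast_atTop_atTop (R := ℝ))
  have h2 : ∀ᶠ N : ℕ in Filter.atTop, (36 * M) * Real.log (Real.log N) ^ 4 ≤ Real.log N := by
    have h3 := (Real.isLittleO_pow_log_id_atTop (n := 4)).bound (show (0 : ℝ) < 1 / (36 * M + 1) by positivity)
    have h4 := hlim.eventually h3
    filter_upwards [h4, hlim.eventually_ge_atTop 1] with N h5 h6
    simp only [id] at h5
    rw [Real.norm_of_nonneg (by positivity), Real.norm_of_nonneg (by linarith), one_div, inv_mul_eq_div,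
      le_div_iff₀ (by positivity)] at h5
    have h7 : 0 ≤ Real.log (Real.log N) ^ 4 := by positivity
    nlinarith
  have h3 : ∀ᶠ N : ℕ in Filter.atTop, 1 ≤ Real.log (Real.log N) :=
    ((Real.tendsto_log_atTop.comp hlim).eventually_ge_atTop 1)
  obtain ⟨n2, h4⟩ := Filter.eventually_atTop.1 (h2.and (h3.and (hlim.eventually_ge_atTop 54)))
  refine ⟨N0 + n1 + n2 + 1, fun L hL N hN z hz hzE => ?_⟩
  have hNL : N0 + n1 + n2 ≤ N := by
    have h5 : L < 10 ^ L := Nat.lt_pow_self (by norm_num)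
    have h6 : 10 ^ L ≤ 10 ^ (2 * L + 1) := Nat.pow_le_pow_right (by norm_num) (by omega)
    omega
  obtain ⟨hb, hℓ1, hL54⟩ := h4 N (by omega)
  obtain ⟨r, hr1, _, hr3⟩ := h0 N (by omega) z hzE
  have hV := h1 N (by omega) z (by omega) hzE
  have hLgL : Real.log N = (2 * L + 1) * Real.log 10 := by
    rw [hN]
    push_cast
    rw [Real.log_pow]
    push_cast
    ring
  obtain ⟨G, hG⟩ : ∃ G, G = Real.log (N : ℝ) := ⟨_, rfl⟩
  rw [← hG] at hb hℓ1 hL54 hr1 hr3 hV hzE hLgL ⊢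
  have hG0 : 0 < G := by linarith
  obtain ⟨ℓ, hℓ⟩ : ∃ ℓ, ℓ = Real.log G := ⟨_, rfl⟩
  rw [← hℓ] at hb hℓ1
  have hℓ0 : 0 < ℓ := by linarith
  refine ⟨r, hr1, ?_, by linarith, hV⟩
  have hz0 : (0 : ℝ) ≤ z := Nat.cast_nonneg _
  -- bound for r
  have hr : (r : ℝ) ≤ 3 * C1 * ℓ := by
    have h5 := hr3 3
    have h6 := Real.log_le_log (by positivity) h5
    rw [Real.log_pow, Real.log_pow, ← hℓ] at h6
    have h7 : 1 ≤ Real.log ((3 : ℕ) : ℝ) := by
      rw [← Real.log_exp 1]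
      apply Real.log_le_log (Real.exp_pos _)
      have := Real.exp_one_lt_d9
      push_cast
      linarith
    have h8 : (r : ℝ) ≤ r * Real.log ((3 : ℕ) : ℝ) := le_mul_of_one_le_right (Nat.cast_nonneg _) h7
    push_cast at h6 h8
    linarith
  have hlz : Real.log ((z : ℝ) + 1) ≤ (E + 1) * ℓ := by
    have h5 : (z : ℝ) + 1 ≤ G ^ (E + 1) := by
      have h6 : 1 ≤ G ^ E := one_le_pow₀ (by linarith)
      rw [pow_succ]
      nlinarith
    have h6 := Real.log_le_log (by positivity) h5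
    rw [Real.log_pow, ← hℓ] at h6
    push_cast at h6
    exact h6
  have hlz0 : 0 ≤ Real.log ((z : ℝ) + 1) := Real.log_nonneg (by linarith)
  obtain ⟨W, hW⟩ : ∃ W, W = K * ℓ ^ 2 := ⟨_, rfl⟩
  have hW0 : 0 ≤ W := by rw [hW]; positivity
  have hrW : (r : ℝ) * Real.log ((z : ℝ) + 1) ≤ W := by
    calc (r : ℝ) * Real.log ((z : ℝ) + 1) ≤ (3 * C1 * ℓ) * ((E + 1) * ℓ) := by gcongr
      _ = W := by rw [hW, hK]; ring
  have hzr : ((z : ℝ) + 1) ^ r ≤ Real.exp W := by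
    have e : ((z : ℝ) + 1) ^ r = Real.exp (r * Real.log ((z : ℝ) + 1)) := by
      rw [Real.exp_nat_mul, Real.exp_log (by linarith)]
    rw [e]
    exact Real.exp_le_exp.2 hrW
  obtain ⟨m, hm⟩ : ∃ m, m = Nat.log 10 ((z + 1) ^ r) := ⟨_, rfl⟩
  rw [← hm]
  have hmW : (m : ℝ) ≤ W := by
    have h5 : 10 ^ m ≤ (z + 1) ^ r := by
      rw [hm]
      exact Nat.pow_log_le_self 10 (by positivity)
    have h6 : (10 : ℝ) ^ m ≤ ((z : ℝ) + 1) ^ r := by exact_mod_cast h5
    have h7 := Real.log_le_log (by positivity) h6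
    rw [Real.log_pow, Real.log_pow] at h7
    have h8 : 1 ≤ Real.log (10 : ℝ) := by
      rw [← Real.log_exp 1]
      apply Real.log_le_log (Real.exp_pos _)
      have := Real.exp_one_lt_d9
      linarith
    have h9 : (m : ℝ) ≤ m * Real.log 10 := le_mul_of_one_le_right (Nat.cast_nonneg _) h8
    linarith
  obtain ⟨e, he⟩ : ∃ e, e = (L - 1) / (m + 3) := ⟨_, rfl⟩
  rw [← he]
  have he1 : ((L : ℝ) - 1) ≤ (e + 1) * (W + 3) := by
    have h5 : L - 1 < (e + 1) * (m + 3) := by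
      have h6 := Nat.div_add_mod (L - 1) (m + 3)
      have h7 := Nat.mod_lt (L - 1) (show 0 < m + 3 by omega)
      rw [← he] at h6
      have h8 : (e + 1) * (m + 3) = (m + 3) * e + (m + 3) := by ring
      omega
    have h6 : (L : ℝ) ≤ (e + 1) * (m + 3) := by
      have : L ≤ (e + 1) * (m + 3) := by omega
      exact_mod_cast this
    have h7 : ((e : ℝ) + 1) * (m + 3) ≤ (e + 1) * (W + 3) := by
      apply mul_le_mul_of_nonneg_left _ (by positivity)
      linarith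
    linarith
  obtain ⟨Y, hY⟩ : ∃ Y, Y = 2 * W + (U + s + 1) * ℓ := ⟨_, rfl⟩
  have hY0 : 0 ≤ Y := by rw [hY]; positivity
  have hbig : (W + 3) * (1 + Y / c) ≤ (L : ℝ) - 1 := by
    have h5 : (W + 3) * (1 + Y / c) ≤ M * ℓ ^ 4 := by
      have h6 : W + 3 ≤ (K + 3) * ℓ ^ 2 := by
        rw [hW]
        have : 1 ≤ ℓ ^ 2 := one_le_pow₀ hℓ1
        nlinarith
      have h7 : 1 + Y / c ≤ (1 + (2 * K + (U + s + 1)) / c) * ℓ ^ 2 := by
        have h8 : 1 ≤ ℓ ^ 2 := one_le_pow₀ hℓ1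
        have h9 : Y ≤ (2 * K + (U + s + 1)) * ℓ ^ 2 := by
          rw [hY, hW]
          have h10 : ℓ ≤ ℓ ^ 2 := by nlinarith
          have h11 : ((U : ℝ) + s + 1) * ℓ ≤ (U + s + 1) * ℓ ^ 2 := mul_le_mul_of_nonneg_left h10 (by positivity)
          have h12 : (2 * K + ((U : ℝ) + s + 1)) * ℓ ^ 2 = 2 * (K * ℓ ^ 2) + (U + s + 1) * ℓ ^ 2 := by ring
          rw [h12]
          linarith
        have h10 : Y / c ≤ (2 * K + (U + s + 1)) * ℓ ^ 2 / c := div_le_div_of_nonneg_right h9 hc0.le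
        have e1 : (1 + (2 * K + (U + s + 1)) / c) * ℓ ^ 2 = ℓ ^ 2 + (2 * K + (U + s + 1)) * ℓ ^ 2 / c := by ring
        rw [e1]
        linarith
      calc (W + 3) * (1 + Y / c) ≤ ((K + 3) * ℓ ^ 2) * ((1 + (2 * K + (U + s + 1)) / c) * ℓ ^ 2) := by
            apply mul_le_mul h6 h7 (by positivity) (by positivity)
        _ = M * ℓ ^ 4 := by rw [hM]; ring
    have h6 : Real.log 10 ≤ 9 := by
      have := Real.log_le_sub_one_of_pos (show (0 : ℝ) < 10 by norm_num)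
      linarith
    have h7 : G ≤ (2 * L + 1) * 9 := by
      rw [hLgL]
      exact mul_le_mul_of_nonneg_left h6 (by positivity)
    linarith
  have hce : Y ≤ c * e := by
    have h5 : (W + 3) * (1 + Y / c) ≤ (e + 1) * (W + 3) := hbig.trans he1
    have h6 : 1 + Y / c ≤ e + 1 := by
      rw [mul_comm ((e : ℝ) + 1)] at h5
      exact le_of_mul_le_mul_left h5 (by linarith)
    have h7 : Y / c ≤ e := by linarith
    rw [div_le_iff₀ hc0] at h7
    linarith
  have hqe : (1 - c) ^ e ≤ Real.exp (-(c * e)) := by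
    have h5 : 1 - c ≤ Real.exp (-c) := by
      have := Real.add_one_le_exp (-c)
      linarith
    calc (1 - c) ^ e ≤ (Real.exp (-c)) ^ e := pow_le_pow_left₀ (by linarith) h5 e
      _ = Real.exp (-(c * e)) := by rw [← Real.exp_nat_mul]; congr 1; ring
  have hexp : 1 / G ^ (U + s + 1) = Real.exp (-((U + s + 1) * ℓ)) := by
    have e1 : G ^ (U + s + 1) = Real.exp ((U + s + 1) * ℓ) := by
      have e2 : ((U : ℝ) + s + 1) * ℓ = ((U + s + 1 : ℕ) : ℝ) * ℓ := by push_cast; ring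
      rw [e2, Real.exp_nat_mul, hℓ, Real.exp_log hG0]
    rw [Real.exp_neg, e1, one_div]
  rw [hexp]
  calc ((z : ℝ) + 1) ^ r * (((z : ℝ) + 1) ^ r * (1 - c) ^ e) ≤ Real.exp W * (Real.exp W * Real.exp (-(c * e))) := by
        apply mul_le_mul hzr _ _ (Real.exp_pos _).le
        · exact mul_le_mul hzr hqe (pow_nonneg (by linarith) _) (Real.exp_pos _).le
        · exact mul_nonneg (by positivity) (pow_nonneg (by linarith) _)
    _ = Real.exp (2 * W - c * e) := by rw [← Real.exp_add, ← Real.exp_add]; congr 1; ring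
    _ ≤ _ := Real.exp_le_exp.2 (by linarith)

lemma cop10 (v t : ℕ) : (v % 10 + t).Coprime 10 ↔ ¬ 2 ∣ v + t ∧ ¬ 5 ∣ v + t := by
  have h1 : v % 10 + t ≡ v + t [MOD 10] := (Nat.mod_modEq v 10).add_right _
  have h2 : (v % 10 + t).Coprime 10 ↔ (v + t).Coprime 10 := by
    unfold Nat.Coprime
    rw [h1.gcd_eq]
  rw [h2]
  have e : (10 : ℕ) = 2 * 5 := by norm_num
  rw [e, Nat.coprime_mul_iff_right, Nat.coprime_comm, Nat.Prime.coprime_iff_not_dvd Nat.prime_two, Nat.coprime_comm,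
    Nat.Prime.coprime_iff_not_dvd Nat.prime_five]

/-- **package MAIN** -/
theorem main (hDEC : S_DEC) (hCARD : S_CARD) : S_MAIN := by
  intro D hD s E U
  obtain ⟨c, hc0, hc1, hdec⟩ := hDEC D hD
  obtain ⟨L₀, hL0⟩ := final_ineq s E U c hc0 hc1
  refine ⟨L₀ + 1, fun L hL N hN z hz hzE h => ?_⟩
  obtain ⟨r, hr1, hr2, hG4, hV⟩ := hL0 L (by omega) N hN z hz hzE
  obtain ⟨hcard, hlast⟩ := hCARD D hD L (by omega)
  have hVpos := Vz_pos z
  have hVi : 0 < (Vz z)⁻¹ := inv_pos.2 hVpos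
  obtain ⟨A, hA⟩ : ∃ A, A = (D.erase 0).filter fun a => ∀ i, (a + h i).Coprime 10 := ⟨_, rfl⟩
  obtain ⟨F, hF⟩ : ∃ F : ℕ → ℕ, F = fun a => (((Pal D L).filter fun v => v % 10 = a).filter fun v => ∀ p ∈ PP z, ¬ Ev h p v).card := ⟨_, rfl⟩
  -- the sum as a number
  have hsum : ∑ v ∈ Pal D L, ∏ i, Pool.Agent.P8H18.PS.lamz z (v + h i) = ((Vz z)⁻¹) ^ s * ∑ a ∈ A, (F a : ℝ) := by
    have h1 : ∀ v ∈ Pal D L, ∏ i, Pool.Agent.P8H18.PS.lamz z (v + h i) =
        if (∀ i, (v % 10 + h i).Coprime 10) ∧ ∀ p ∈ PP z, ¬ Ev h p v then ((Vz z)⁻¹) ^ s else 0 := by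
      intro v _
      have h2 : ∀ i : Fin s, Pool.Agent.P8H18.PS.lamz z (v + h i) =
          if ∀ p ∈ pz z, ¬ p ∣ v + h i then (Vz z)⁻¹ else 0 := fun i => rfl
      rw [prod_congr rfl (fun i _ => h2 i)]
      have h3 : (∀ i : Fin s, ∀ p ∈ pz z, ¬ p ∣ v + h i) ↔ ((∀ i, (v % 10 + h i).Coprime 10) ∧ ∀ p ∈ PP z, ¬ Ev h p v) := by
        rw [pz_split z hz]
        constructor
        · intro h4
          refine ⟨fun i => (cop10 v (h i)).2 ⟨h4 i 2 (by simp), h4 i 5 (by simp)⟩, fun p hp => ?_⟩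
          rintro ⟨i, hi⟩
          exact h4 i p (mem_insert_of_mem (mem_insert_of_mem hp)) hi
        · rintro ⟨h4, h5⟩ i p hp
          rw [mem_insert, mem_insert] at hp
          rcases hp with hp | hp | hp
          · rw [hp]; exact ((cop10 v (h i)).1 (h4 i)).1
          · rw [hp]; exact ((cop10 v (h i)).1 (h4 i)).2
          · intro hd
            exact h5 p hp ⟨i, hd⟩
      by_cases h4 : ∀ i : Fin s, ∀ p ∈ pz z, ¬ p ∣ v + h i
      · rw [if_pos (h3.1 h4), prod_congr rfl (fun i _ => if_pos (h4 i)), prod_const, card_univ, Fintype.card_fin]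
      · rw [if_neg (fun h5 => h4 (h3.2 h5))]
        push Not at h4
        obtain ⟨i, p, hp, hd⟩ := h4
        apply prod_eq_zero (mem_univ i)
        rw [if_neg]
        intro h5
        exact h5 p hp hd
    rw [sum_congr rfl h1, ← sum_filter, sum_const, nsmul_eq_mul, mul_comm]
    congr 1
    have h2 : ((Pal D L).filter fun v => (∀ i, (v % 10 + h i).Coprime 10) ∧ ∀ p ∈ PP z, ¬ Ev h p v).card = ∑ a ∈ A, F a := by
      rw [card_eq_sum_card_fiberwise (f := fun v => v % 10) (t := A)]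
      · apply sum_congr rfl
        intro a ha
        rw [hF]
        simp only
        congr 1
        ext v
        simp only [mem_filter]
        rw [hA, mem_filter] at ha
        constructor
        · rintro ⟨⟨h3, _, h4⟩, h5⟩
          exact ⟨⟨h3, h5⟩, h4⟩
        · rintro ⟨⟨h3, h5⟩, h4⟩
          exact ⟨⟨h3, by rw [h5]; exact ha.2, h4⟩, h5⟩
      · intro v hv
        simp only [coe_filter, Set.mem_ofPred_eq] at hv
        rw [mem_coe, hA, mem_filter]
        exact ⟨hlast v hv.1, hv.2.1⟩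
    rw [h2]
    push_cast
    rfl
  -- the main term
  have hE0 : (D.erase 0).Nonempty := by
    obtain ⟨a, ha, b, hb, hab⟩ := hD.three
    by_cases h0 : a = 0
    · refine ⟨b, mem_erase.2 ⟨fun h1 => hab (by rw [h0, h1]), hb⟩⟩
    · exact ⟨a, mem_erase.2 ⟨h0, ha⟩⟩
  have hE0r : (0 : ℝ) < (D.erase 0).card := by exact_mod_cast hE0.card_pos
  have hmainterm : ((Pal D L).card : ℝ) * sing D h z =
      ((Vz z)⁻¹) ^ s * ∑ _a ∈ A, ((D.card : ℝ) ^ L * ∏ p ∈ PP z, (1 - (nu h p : ℝ) / p)) := by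
    have hVz : Vz z = 2 / 5 * ∏ p ∈ PP z, (1 - 1 / (p : ℝ)) := by
      unfold Vz
      rw [prod_pz_split z hz]
      push_cast
      ring
    have hP0 : 0 < ∏ p ∈ PP z, (1 - 1 / (p : ℝ)) := by
      apply prod_pos
      intro p hp
      have hp2 : (2 : ℝ) ≤ p := by exact_mod_cast (mem_PP.1 hp).2.1.two_le
      rw [sub_pos, div_lt_one (by linarith)]
      linarith
    rw [sum_const, nsmul_eq_mul, hcard]
    unfold sing d10
    rw [← hA, prod_div_distrib, prod_pow, hVz]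
    push_cast
    rw [inv_pow, mul_pow]
    field_simp
  rw [hsum, hmainterm, ← mul_sub, ← sum_sub_distrib, abs_mul, abs_of_pos (pow_pos hVi s)]
  -- the error
  obtain ⟨err, herr⟩ : ∃ err : ℝ, err = ((z : ℝ) + 1) ^ r * (((z : ℝ) + 1) ^ r * (1 - c) ^ ((L - 1) / (Nat.log 10 ((z + 1) ^ r) + 3))) +
        2 * Real.exp (3 * (s * (1 + Real.log z)) - r) := ⟨_, rfl⟩
  have hX : (0 : ℝ) ≤ (D.card : ℝ) ^ L := by positivity
  have hone : ∀ a ∈ A, |(F a : ℝ) - (D.card : ℝ) ^ L * ∏ p ∈ PP z, (1 - (nu h p : ℝ) / p)| ≤ (D.card : ℝ) ^ L * err := by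
    intro a ha
    rw [hA, mem_filter] at ha
    rw [hF, herr]
    exact sieve_a D L a (1 - c) (fun d hd r' => hdec L d (by omega) hd a ha.1 r') h (by linarith) (by linarith) z r
  obtain ⟨G, hG⟩ : ∃ G, G = Real.log (N : ℝ) := ⟨_, rfl⟩
  rw [← hG] at hr1 hr2 hG4 hV ⊢
  have hG0 : 0 < G := by linarith
  have herr1 : err ≤ 1 / G ^ (U + s) := by
    have h1 : 1 / G ^ (U + s + 1) ≤ 1 / 2 * (1 / G ^ (U + s)) := by
      rw [pow_succ, one_div_mul_one_div]
      apply one_div_le_one_div_of_le (by positivity)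
      nlinarith [pow_pos hG0 (U + s)]
    have h2 : 2 * (1 / G ^ (U + s + 2)) ≤ 1 / 2 * (1 / G ^ (U + s)) := by
      rw [pow_add G (U + s) 2, mul_one_div, one_div_mul_one_div, div_le_div_iff₀ (by positivity) (by positivity)]
      nlinarith [pow_pos hG0 (U + s), mul_pos (pow_pos hG0 (U + s)) hG0]
    rw [herr]
    linarith
  have herr0 : 0 ≤ err := by
    rw [herr]
    have h1 : 0 ≤ (1 - c) ^ ((L - 1) / (Nat.log 10 ((z + 1) ^ r) + 3)) := pow_nonneg (by linarith) _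
    positivity
  have hAc : (A.card : ℝ) ≤ (D.erase 0).card := by
    rw [hA]
    exact_mod_cast card_filter_le _ _
  calc ((Vz z)⁻¹) ^ s * |∑ a ∈ A, ((F a : ℝ) - (D.card : ℝ) ^ L * ∏ p ∈ PP z, (1 - (nu h p : ℝ) / p))|
      ≤ G ^ s * ((D.erase 0).card * ((D.card : ℝ) ^ L * (1 / G ^ (U + s)))) := by
        apply mul_le_mul (pow_le_pow_left₀ hVi.le hV s) _ (abs_nonneg _) (by positivity)
        refine (abs_sum_le_sum_abs _ _).trans ((sum_le_sum hone).trans ?_)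
        rw [sum_const, nsmul_eq_mul]
        apply mul_le_mul hAc _ (by positivity) hE0r.le
        exact mul_le_mul_of_nonneg_left herr1 hX
    _ = ((D.erase 0).card * (D.card : ℝ) ^ L) * (G ^ s / G ^ (U + s)) := by ring
    _ = ((D.erase 0).card * (D.card : ℝ) ^ L) * (1 / G ^ U) := by
        congr 1
        rw [pow_add]
        field_simp
    _ = _ := by rw [hcard]; push_cast; ring

end Pool.Agent.P8H65.PS
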